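import Pool.Agent.L5helper71.SsDeg

/-!
# Semisimplicity at every prime number from one degenerate fibre

Let `F` be a number field and `M` a pure motive over `F` of odd weight `w` with a polarization, for
instance (a part of) the cohomology of odd degree of a smooth projective variety. Let `R` be the
restriction of scalars of `M` to `ℚ`; over the Galois closure `F'` of `F` it is the orthogonal sum of
the conjugates of `M`. `R` is a pure system over `ℚ` (`IsPureSystem`; `Γ` is the Galois group of `ℚ` and
`θ` is the identity, or `Γ` is the fundamental group of a variety with a rational point `θ`), and over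
the subgroup `H`, the Galois group of `F'`, its realization at the prime number `p` has the blocks
`r i` with the alternating forms `B i` (`IsAlternatingSum`).

**Theorem.** Suppose that at ONE prime number `p`
* each `r i` is irreducible, also for all subgroups of finite index of `H` (over the field of `p`-adic
  numbers only), and
* for each `i` there is an element of `H` (`IsDegeneration`; an inertia element at a place where only
  the conjugate `i` degenerates, semistably) which is trivial on the other blocks and unipotent on the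
  block `i`, such that all its Jordan blocks of size greater than one have even size, it has Jordan
  blocks of size one, and it has exactly one Jordan block of some even size.

Then for EVERY prime number `ℓ` the realization `R_ℓ` is semisimple, for all subgroups of finite index,
and so are all subrepresentations, in particular `M_ℓ` as a representation of the Galois groups of
all finite extensions of `F`.

The simplest degenerations of this type are those with one ordinary double point (the theorem of
Picard and Lefschetz; one Jordan block of size two), but the Jordan blocks may have the sizes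
`1, ..., 1, 4` or `1, ..., 1, 2, 2, 2, 6` as well. If `F = ℚ` there is only one block `r i` and one needs one
degenerate place. Nothing is assumed about the system at the other prime numbers, about Frobenius
elements, about Hodge numbers or about places of residue characteristic `p`.

Idea of the proof. By Clifford's theorem and since the unipotent element has a Jordan block whose size
occurs only once, `r i` is irreducible over the algebraic closure, for all subgroups of finite index.
The logarithm of the unipotent element lies in the Lie algebra `𝔤` of the image of `H`, with support in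
the block `i`; a theorem of the starting library which was not used so far,
`Pool.Agent.Y126.JB.full_of_typ2`, shows that an irreducible Lie algebra with such an element is the
symplectic Lie algebra (`𝔤` contains long root elements, found through a grading). So `𝔤` contains all
infinitesimal isometries of the blocks. In it there is an element without relations of isotropic type
between its eigenvalues, and the theorem of the starting library `Pool.Agent.R932.SQ` (from one such
element at one prime number to all prime numbers) can be applied to `R`; Clifford's theorem gives the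
subgroups of finite index.
-/

set_option autoImplicit false

namespace Pool.Agent.Results.MP_b4801b_ag.OneDegenerateFibre

open Matrix Polynomial Filter Topology NumberField IsDedekindDomain

/-- the absolute Galois group, with the profinite (Krull) topology -/
abbrev AbsoluteGaloisGroup (K : Type) [Field K] : Type := Gal(AlgebraicClosure K/K)

/-- `σ` is a Frobenius element at the prime `v` of `K`: there is a maximal ideal `Q` above `v` of the
ring of all algebraic integers with `σ x ≡ x ^ N(v)` modulo `Q` for all `x` -/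
def IsFrobenius {K : Type} [Field K] [NumberField K] (v : HeightOneSpectrum (𝓞 K))
    (σ : AbsoluteGaloisGroup K) : Prop :=
  ∃ Q : Ideal (𝓞 (AlgebraicClosure K)), Q.IsMaximal ∧
    Q.comap (algebraMap (𝓞 K) (𝓞 (AlgebraicClosure K))) = v.asIdeal ∧
    ∀ x : 𝓞 (AlgebraicClosure K), σ • x - x ^ Ideal.absNorm v.asIdeal ∈ Q

/-- Representations `ρ ℓ` of a group `Γ` on the `n`-dimensional spaces over the fields of `ℓ`-adic
numbers, for all prime numbers `ℓ`, and a homomorphism `θ` from the absolute Galois group of `ℚ` to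
`Γ`, such that
* `ρ ℓ` is continuous on the Galois group of `ℚ`,
* `Γ` acts by similitudes, with factor `χ ℓ`, of the nondegenerate symmetric or alternating form with
  matrix `J ℓ`,
* the representations are pure of weight `w` and form a compatible system: outside of the finite set
  `S` of places the inverse of a Frobenius element at `v` acts for all `ℓ` not divisible by `v` with the
  characteristic polynomial `P v`, which has integral coefficients and complex roots of absolute value
  `N(v) ^ (w / 2)`, and with similitude factor `N(v) ^ w`. -/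
structure IsPureSystem {Γ : Type} [Group Γ] (θ : AbsoluteGaloisGroup ℚ →* Γ) (n w : ℕ)
    (S : Set (HeightOneSpectrum (𝓞 ℚ))) (P : HeightOneSpectrum (𝓞 ℚ) → ℤ[X])
    (ρ : ∀ (ℓ : ℕ) [Fact ℓ.Prime], Γ →* Matrix (Fin n) (Fin n) ℚ_[ℓ])
    (J : ∀ (ℓ : ℕ) [Fact ℓ.Prime], Matrix (Fin n) (Fin n) ℚ_[ℓ])
    (χ : ∀ (ℓ : ℕ) [Fact ℓ.Prime], Γ → ℚ_[ℓ]) : Prop where
  finite : S.Finite
  monic : ∀ v ∉ S, (P v).Monic
  weight : ∀ v ∉ S, ∀ z : ℂ, aeval z (P v) = 0 → ‖z‖ ^ 2 = (Ideal.absNorm v.asIdeal : ℝ) ^ w
  continuous : ∀ (ℓ : ℕ) [Fact ℓ.Prime], Continuous fun g => ρ ℓ (θ g)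
  symm_or_alt : ∀ (ℓ : ℕ) [Fact ℓ.Prime], (J ℓ)ᵀ = J ℓ ∨ (J ℓ)ᵀ = -J ℓ
  nondegenerate : ∀ (ℓ : ℕ) [Fact ℓ.Prime], (J ℓ).det ≠ 0
  similitude : ∀ (ℓ : ℕ) [Fact ℓ.Prime] (g : Γ), (ρ ℓ g)ᵀ * J ℓ * ρ ℓ g = χ ℓ g • J ℓ
  charpoly : ∀ (ℓ : ℕ) [Fact ℓ.Prime], ∀ v ∉ S, (ℓ : 𝓞 ℚ) ∉ v.asIdeal →
    ∀ σ : AbsoluteGaloisGroup ℚ, IsFrobenius v σ →
      (ρ ℓ (θ σ⁻¹)).charpoly = (P v).map (algebraMap ℤ ℚ_[ℓ])
  factor : ∀ (ℓ : ℕ) [Fact ℓ.Prime], ∀ v ∉ S, (ℓ : 𝓞 ℚ) ∉ v.asIdeal →
    ∀ σ : AbsoluteGaloisGroup ℚ, IsFrobenius v σ →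
      χ ℓ (θ σ⁻¹) = (Ideal.absNorm v.asIdeal : ℚ_[ℓ]) ^ w

/-- On the subgroup `H` the `p`-adic representation is block diagonal, with the representations
`r i` of rank `N i` as blocks, and the form is alternating and block diagonal, with the blocks `B i`. -/
structure IsAlternatingSum {Γ : Type} [Group Γ] (θ : AbsoluteGaloisGroup ℚ →* Γ) {p : ℕ}
    [Fact p.Prime] {n d : ℕ} {N : Fin d → ℕ} (E : (Σ i, Fin (N i)) ≃ Fin n)
    (ρ : Γ →* Matrix (Fin n) (Fin n) ℚ_[p]) (J : Matrix (Fin n) (Fin n) ℚ_[p])
    (H : Subgroup (AbsoluteGaloisGroup ℚ)) (r : ∀ i, H →* Matrix (Fin (N i)) (Fin (N i)) ℚ_[p])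
    (B : ∀ i, Matrix (Fin (N i)) (Fin (N i)) ℚ_[p]) : Prop where
  blocks : ∀ h : H, ρ (θ h) = (blockDiagonal' fun i => r i h).submatrix E.symm E.symm
  form : J = (blockDiagonal' B).submatrix E.symm E.symm
  alt : Jᵀ = -J

/-- the subspace `W` is stable under the subgroup `U` -/
def IsStable {F : Type} [Field F] {n : ℕ} {Γ : Type} [Group Γ] (ρ : Γ →* Matrix (Fin n) (Fin n) F)
    (U : Subgroup Γ) (W : Submodule F (Fin n → F)) : Prop :=
  ∀ g ∈ U, ∀ x ∈ W, ρ g *ᵥ x ∈ W

/-- the subrepresentation `V` of the restriction to `U` is semisimple: every stable subspace of `V`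
has a stable complement in `V` -/
def IsSemisimpleOn {F : Type} [Field F] {n : ℕ} {Γ : Type} [Group Γ]
    (ρ : Γ →* Matrix (Fin n) (Fin n) F) (U : Subgroup Γ) (V : Submodule F (Fin n → F)) : Prop :=
  ∀ W ≤ V, IsStable ρ U W → ∃ W' ≤ V, IsStable ρ U W' ∧ W ⊓ W' = ⊥ ∧ W ⊔ W' = V

/-- the number of Jordan blocks of size `j > 0` of the unipotent matrix `u` -/
noncomputable def jordanBlocks {F : Type} [Field F] {N : ℕ} (u : Matrix (Fin N) (Fin N) F)
    (j : ℕ) : ℤ :=
  ((u - 1) ^ (j - 1)).rank + ((u - 1) ^ (j + 1)).rank - 2 * ((u - 1) ^ j).rank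

/-- `g` is trivial on the other blocks and unipotent on the block `i`; its Jordan blocks on the block
`i` have size one or even size, there are Jordan blocks of size one, and there is exactly one of some
even size. -/
structure IsDegeneration {p : ℕ} [Fact p.Prime] {d : ℕ} {N : Fin d → ℕ} {H : Type} [Group H]
    (r : ∀ i, H →* Matrix (Fin (N i)) (Fin (N i)) ℚ_[p]) (i : Fin d) (g : H) : Prop where
  other : ∀ j, j ≠ i → r j g = 1
  unipotent : IsNilpotent (r i g - 1)
  odd : ∀ j, Odd j → 3 ≤ j → jordanBlocks (r i g) j = 0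
  one : jordanBlocks (r i g) 1 ≠ 0
  even : ∃ j, Even j ∧ jordanBlocks (r i g) j = 1

theorem result {Γ : Type} [Group Γ] (θ : AbsoluteGaloisGroup ℚ →* Γ) {n w : ℕ} (hw : 0 < w)
    (S : Set (HeightOneSpectrum (𝓞 ℚ))) (P : HeightOneSpectrum (𝓞 ℚ) → ℤ[X])
    (ρ : ∀ (ℓ : ℕ) [Fact ℓ.Prime], Γ →* Matrix (Fin n) (Fin n) ℚ_[ℓ])
    (J : ∀ (ℓ : ℕ) [Fact ℓ.Prime], Matrix (Fin n) (Fin n) ℚ_[ℓ])
    (χ : ∀ (ℓ : ℕ) [Fact ℓ.Prime], Γ → ℚ_[ℓ]) (h : IsPureSystem θ n w S P ρ J χ)
    -- the decomposition over a subgroup at one prime number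
    (p : ℕ) [Fact p.Prime] {d : ℕ} {N : Fin d → ℕ} (E : (Σ i, Fin (N i)) ≃ Fin n)
    (H : Subgroup (AbsoluteGaloisGroup ℚ)) (r : ∀ i, H →* Matrix (Fin (N i)) (Fin (N i)) ℚ_[p])
    (B : ∀ i, Matrix (Fin (N i)) (Fin (N i)) ℚ_[p])
    (hs : IsAlternatingSum θ E (ρ p) (J p) H r B)
    -- irreducibility, and one degeneration of each block, at this prime number
    (hirr : ∀ i, ∀ U : Subgroup H, U.FiniteIndex → ∀ W, IsStable (r i) U W → W = ⊥ ∨ W = ⊤)
    (hdeg : ∀ i, ∃ g : H, IsDegeneration r i g) :
    -- semisimplicity at every prime number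
    ∀ (ℓ : ℕ) [Fact ℓ.Prime] (U : Subgroup Γ), U.FiniteIndex →
      ∀ V : Submodule ℚ_[ℓ] (Fin n → ℚ_[ℓ]), IsStable (ρ ℓ) U V → IsSemisimpleOn (ρ ℓ) U V := by
  intro ℓ hℓ U hU V hV W hWV hW
  have hdet := fun i => Pool.Agent.L5helper71.Ss.det_of_block E hs.form (h.nondegenerate p) i
  have hsim : ∀ i (g : H), (r i g)ᵀ * B i * r i g = χ p (θ g) • B i := fun i g =>
    Pool.Agent.L5helper71.Ss.sim_block E (hs.blocks g) hs.form (h.similitude p (θ g)) i
  have halt : ∀ i, (B i)ᵀ = -B i := by
    intro i
    have h1 := hs.alt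
    rw [hs.form, transpose_submatrix, blockDiagonal'_transpose] at h1
    have h2 : blockDiagonal' (fun i => (B i)ᵀ) = blockDiagonal' (-B) := by
      rw [blockDiagonal'_neg]
      ext x y
      have h3 := congrFun (congrFun h1 (E x)) (E y)
      simpa only [submatrix_apply, Equiv.symm_apply_apply, Matrix.neg_apply] using h3
    exact congrFun (blockDiagonal'_injective h2) i
  have hbig : ∀ X, (∀ i, (X i)ᵀ * B i + B i * X i = 0) → Pool.Agent.R932.PO.JTan p r X := by
    intro X hX
    refine Pool.Agent.L5helper71.Ss.jtan_of_deg r halt hdet (fun g => χ p (θ g)) hsim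
      (fun i U' hU' W' hW' => hirr i U' hU' W' hW') (fun i => ?_) X hX
    obtain ⟨g, hg⟩ := hdeg i
    exact ⟨g, hg.other, hg.unipotent, hg.odd, hg.one, hg.even⟩
  exact (Pool.Agent.L5helper71.Ss.ss_full (Module.finrank_self ℚ) θ hw h.finite P
    (fun v hv => ⟨h.monic v hv, h.weight v hv⟩) ρ (fun ℓ _ => h.continuous ℓ) J
    (fun ℓ _ => h.symm_or_alt ℓ) (fun ℓ _ => h.nondegenerate ℓ) χ (fun ℓ _ => h.similitude ℓ)
    (fun ℓ _ v hv hvℓ σ hσ => ⟨h.charpoly ℓ v hv hvℓ σ hσ, h.factor ℓ v hv hvℓ σ hσ⟩)
    p E H r B hs.blocks hs.form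
    (fun i _ hi _ => absurd (Pool.Agent.L5helper71.Ss.even_blk (halt i) (hdet i)) hi)
    hbig ℓ U hU).sub hV hW hWV

end Pool.Agent.Results.MP_b4801b_ag.OneDegenerateFibre
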