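import Pool.Agent.L5helper71.SsNear

/-!
# Semisimplicity at every prime number in families is decided by one finite quotient

Let `T` be a smooth variety over `ℚ` and `X → T` a smooth projective family, `w > 0`, and for all prime
numbers `ℓ` let `V_ℓ` be the `w`-th `ℓ`-adic cohomology of the fibres, or a part of it that is cut out by
algebraic correspondences. `Γ` is the fundamental group of `T`, a profinite group, and a rational point
`t` of `T` gives a homomorphism `s` from the absolute Galois group of `ℚ` to `Γ`.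

**Theorem.** Suppose that at ONE prime number `p` the Lie algebra of the image of `Γ` in `GL (V_p)` (the
monodromy of the whole family) contains the Lie algebra of all isometries of the form, or more
generally one element `X`, of multiplier `c`, without isotropic relation. Then there are an open normal
subgroup `Φ` of `Γ` and a coset `γ Φ` with the following property: if the image of the homomorphism `s`
of a rational point meets the coset `γ Φ`, then the pure system of the fibre at this point is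
semisimple for EVERY prime number `ℓ`, for all subgroups of finite index of the absolute Galois group of
`ℚ` (number fields), and so is every subrepresentation. The same holds for the system over `Γ`, or
over any group `Δ` through which the point factors.

`Φ` and `γ` depend only on the `p`-adic representation of `Γ`, not on the point, on the other prime
numbers or on the Frobenius elements. Hence:
* The conjecture of Grothendieck and Serre holds for all `ℓ` for all rational points `t` of `T` outside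
  of a thin set, if `T` is (unirational or) rational. The thin set is explained by ONE class of one
  finite group `Γ / Φ`: it is not necessary that the `p`-adic image of the Galois group at `t` is open
  in the image of `Γ`, and in fact nothing is assumed or proved about this image.
* For a prime number `q ≠ p` of good reduction of the family the Frobenius class at `q` of a point
  depends only on its residue class modulo `q`. So there are explicit residue classes modulo `q` (for
  all large `q`, by Chebotarev's theorem for the reduction of `T`) such that the conjecture holds at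
  every prime number `ℓ` for all rational points in these residue classes: a positive proportion of
  all points, open for the `q`-adic topology.
* If the hypothesis holds at one rational point `t₀` then, for infinitely many `q`, the conjecture holds
  at every `ℓ` for all rational points which are congruent to `t₀` modulo `q`.

The starting file `EveryPrimeFromOnePrime` has the hypothesis on the image of the Galois group of `ℚ`
itself, for each point separately. Idea of the proof: an isotropic stable subspace gives a relation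
between the eigenvalues of every Frobenius element, and such relations are excluded in an open set of
the `p`-adic image around `1 + p ^ k X` for a suitable `k`. This open set is a union of cosets of an open
subgroup; by Chebotarev's theorem it contains Frobenius elements for each `s` whose image meets it.
-/

set_option autoImplicit false

namespace Pool.Agent.Results.MP_b4801b_ag.OneFiniteQuotient

open Matrix Polynomial Filter Topology NumberField IsDedekindDomain

/-- the absolute Galois group, with the profinite (Krull) topology -/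
abbrev AbsoluteGaloisGroup (K : Type) [Field K] : Type := Gal(AlgebraicClosure K/K)

/-- `σ` is a Frobenius element at the prime `v` of `K`: there is a maximal ideal `Q` above `v` of the
ring of all algebraic integers with `σ x ≡ x ^ N(v)` modulo `Q` for all `x` -/
def IsFrobenius {K : Type} [Field K] [NumberField K] (v : HeightOneSpectrum (𝓞 K))
    (σ : AbsoluteGaloisGroup K) : Prop :=
  ∃ Q : Ideal (𝓞 (AlgebraicClosure K)), Q.IsMaximal ∧
    Q.comap (algebraMap (𝓞 K) (𝓞 (AlgebraicClosure K))) = v.asIdeal ∧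
    ∀ x : 𝓞 (AlgebraicClosure K), σ • x - x ^ Ideal.absNorm v.asIdeal ∈ Q

/-- Representations `ρ ℓ` of a group `Δ` on the `n`-dimensional spaces over the fields of `ℓ`-adic
numbers, for all prime numbers `ℓ`, and a homomorphism `θ` from the absolute Galois group of `ℚ` to
`Δ`, such that
* `ρ ℓ` is continuous on the Galois group of `ℚ`,
* `Δ` acts by similitudes, with factor `χ ℓ`, of the nondegenerate symmetric or alternating form with
  matrix `J ℓ`,
* the representations are pure of weight `w` and form a compatible system: outside of the finite set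
  `S` of places the inverse of a Frobenius element at `v` acts for all `ℓ` not divisible by `v` with the
  characteristic polynomial `P v`, which has integral coefficients and complex roots of absolute value
  `N(v) ^ (w / 2)`, and with similitude factor `N(v) ^ w`. -/
structure IsPureSystem {Δ : Type} [Group Δ] (θ : AbsoluteGaloisGroup ℚ →* Δ) (n w : ℕ)
    (S : Set (HeightOneSpectrum (𝓞 ℚ))) (P : HeightOneSpectrum (𝓞 ℚ) → ℤ[X])
    (ρ : ∀ (ℓ : ℕ) [Fact ℓ.Prime], Δ →* Matrix (Fin n) (Fin n) ℚ_[ℓ])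
    (J : ∀ (ℓ : ℕ) [Fact ℓ.Prime], Matrix (Fin n) (Fin n) ℚ_[ℓ])
    (χ : ∀ (ℓ : ℕ) [Fact ℓ.Prime], Δ → ℚ_[ℓ]) : Prop where
  finite : S.Finite
  monic : ∀ v ∉ S, (P v).Monic
  weight : ∀ v ∉ S, ∀ z : ℂ, aeval z (P v) = 0 → ‖z‖ ^ 2 = (Ideal.absNorm v.asIdeal : ℝ) ^ w
  continuous : ∀ (ℓ : ℕ) [Fact ℓ.Prime], Continuous fun g => ρ ℓ (θ g)
  symm_or_alt : ∀ (ℓ : ℕ) [Fact ℓ.Prime], (J ℓ)ᵀ = J ℓ ∨ (J ℓ)ᵀ = -J ℓ
  nondegenerate : ∀ (ℓ : ℕ) [Fact ℓ.Prime], (J ℓ).det ≠ 0
  similitude : ∀ (ℓ : ℕ) [Fact ℓ.Prime] (g : Δ), (ρ ℓ g)ᵀ * J ℓ * ρ ℓ g = χ ℓ g • J ℓ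
  charpoly : ∀ (ℓ : ℕ) [Fact ℓ.Prime], ∀ v ∉ S, (ℓ : 𝓞 ℚ) ∉ v.asIdeal →
    ∀ σ : AbsoluteGaloisGroup ℚ, IsFrobenius v σ →
      (ρ ℓ (θ σ⁻¹)).charpoly = (P v).map (algebraMap ℤ ℚ_[ℓ])
  factor : ∀ (ℓ : ℕ) [Fact ℓ.Prime], ∀ v ∉ S, (ℓ : 𝓞 ℚ) ∉ v.asIdeal →
    ∀ σ : AbsoluteGaloisGroup ℚ, IsFrobenius v σ →
      χ ℓ (θ σ⁻¹) = (Ideal.absNorm v.asIdeal : ℚ_[ℓ]) ^ w

/-- `X` is in the Lie algebra of the image of `ρ`: it is the limit of `(ρ (σ n) - 1) / ℓ ^ n` for
elements `σ n` of the group -/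
def InLieAlgebraOfImage (ℓ : ℕ) [Fact ℓ.Prime] {n : ℕ} {G : Type} [Group G]
    (ρ : G →* Matrix (Fin n) (Fin n) ℚ_[ℓ]) (X : Matrix (Fin n) (Fin n) ℚ_[ℓ]) : Prop :=
  ∃ σ : ℕ → G, Tendsto (fun m : ℕ => ((ℓ : ℚ_[ℓ]) ^ m)⁻¹ • (ρ (σ m) - 1)) atTop (𝓝 X)

/-- the matrix `X` has simple eigenvalues, and `2 ∑ I ≠ |I| c` for every nonempty set `I` of
eigenvalues which does not contain `t` and `c - t` -/
def HasNoIsotropicRelation {ℓ : ℕ} [Fact ℓ.Prime] {n : ℕ} (X : Matrix (Fin n) (Fin n) ℚ_[ℓ])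
    (c : ℚ_[ℓ]) : Prop :=
  X.charpoly.Separable ∧ ∀ I : Finset (AlgebraicClosure ℚ_[ℓ]), I.Nonempty →
    (∀ t ∈ I, aeval t X.charpoly = 0 ∧ algebraMap ℚ_[ℓ] (AlgebraicClosure ℚ_[ℓ]) c - t ∉ I) →
    2 * ∑ t ∈ I, t ≠
      (I.card : AlgebraicClosure ℚ_[ℓ]) * algebraMap ℚ_[ℓ] (AlgebraicClosure ℚ_[ℓ]) c

/-- The representation `τ` of the topological group `Γ` over the field of `p`-adic numbers is
continuous, `Γ` acts by similitudes of the nondegenerate symmetric or alternating form with matrix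
`B`, and the Lie algebra of its image contains all infinitesimal isometries, or an infinitesimal
similitude `X` of multiplier `c` without isotropic relation. -/
structure HasBigImage {Γ : Type} [Group Γ] [TopologicalSpace Γ] {p : ℕ} [Fact p.Prime] {n : ℕ}
    (τ : Γ →* Matrix (Fin n) (Fin n) ℚ_[p]) (B : Matrix (Fin n) (Fin n) ℚ_[p]) : Prop where
  continuous : Continuous τ
  symm_or_alt : Bᵀ = B ∨ Bᵀ = -B
  nondegenerate : B.det ≠ 0
  similitude : ∀ g : Γ, ∃ c : ℚ_[p], (τ g)ᵀ * B * τ g = c • B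
  big : (∀ X, Xᵀ * B + B * X = 0 → InLieAlgebraOfImage p τ X) ∨
    ∃ (X : Matrix (Fin n) (Fin n) ℚ_[p]) (c : ℚ_[p]),
      InLieAlgebraOfImage p τ X ∧ Xᵀ * B + B * X = c • B ∧ HasNoIsotropicRelation X c

/-- the subspace `W` is stable under the subgroup `U` -/
def IsStable {F : Type} [Field F] {n : ℕ} {Δ : Type} [Group Δ] (ρ : Δ →* Matrix (Fin n) (Fin n) F)
    (U : Subgroup Δ) (W : Submodule F (Fin n → F)) : Prop :=
  ∀ g ∈ U, ∀ x ∈ W, ρ g *ᵥ x ∈ W

/-- the subrepresentation `V` of the restriction to `U` is semisimple: every stable subspace of `V`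
has a stable complement in `V` -/
def IsSemisimpleOn {F : Type} [Field F] {n : ℕ} {Δ : Type} [Group Δ]
    (ρ : Δ →* Matrix (Fin n) (Fin n) F) (U : Subgroup Δ) (V : Submodule F (Fin n → F)) : Prop :=
  ∀ W ≤ V, IsStable ρ U W → ∃ W' ≤ V, IsStable ρ U W' ∧ W ⊓ W' = ⊥ ∧ W ⊔ W' = V

theorem result {Γ : Type} [Group Γ] [TopologicalSpace Γ] [IsTopologicalGroup Γ] [CompactSpace Γ]
    [TotallyDisconnectedSpace Γ] {p : ℕ} [Fact p.Prime] {n : ℕ}
    (τ : Γ →* Matrix (Fin n) (Fin n) ℚ_[p]) (B : Matrix (Fin n) (Fin n) ℚ_[p])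
    (hτ : HasBigImage τ B) :
    ∃ (Φ : Subgroup Γ) (γ : Γ), Φ.Normal ∧ IsOpen (Φ : Set Γ) ∧
      -- all rational points whose image meets the coset `γ Φ`
      ∀ s : AbsoluteGaloisGroup ℚ →* Γ, (∃ σ, γ⁻¹ * s σ ∈ Φ) →
      -- the pure systems with this `p`-adic representation
      ∀ {Δ : Type} [Group Δ] (θ : AbsoluteGaloisGroup ℚ →* Δ) (w : ℕ), 0 < w →
      ∀ (S : Set (HeightOneSpectrum (𝓞 ℚ))) (P : HeightOneSpectrum (𝓞 ℚ) → ℤ[X])
        (ρ : ∀ (ℓ : ℕ) [Fact ℓ.Prime], Δ →* Matrix (Fin n) (Fin n) ℚ_[ℓ])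
        (J : ∀ (ℓ : ℕ) [Fact ℓ.Prime], Matrix (Fin n) (Fin n) ℚ_[ℓ])
        (χ : ∀ (ℓ : ℕ) [Fact ℓ.Prime], Δ → ℚ_[ℓ]), IsPureSystem θ n w S P ρ J χ →
        (∀ σ, ρ p (θ σ) = τ (s σ)) → J p = B →
      ∀ (ℓ : ℕ) [Fact ℓ.Prime] (U : Subgroup Δ), U.FiniteIndex →
        ∀ V : Submodule ℚ_[ℓ] (Fin n → ℚ_[ℓ]), IsStable (ρ ℓ) U V → IsSemisimpleOn (ρ ℓ) U V := by
  classical
  rcases Nat.eq_zero_or_pos n with hn | hn
  · subst hn
    refine ⟨⊤, 1, inferInstance, isOpen_univ, ?_⟩
    intro s _ Δ _ θ w _ S P ρ J χ _ _ _ ℓ _ U _ V _ W _ _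
    refine ⟨V, le_refl _, fun g _ x hx => ?_, Subsingleton.elim _ _, Subsingleton.elim _ _⟩
    have h1 : ρ ℓ g *ᵥ x = x := Subsingleton.elim _ _
    rw [h1]
    exact hx
  have hB0 : B ≠ 0 := by
    rintro rfl
    have : Nonempty (Fin n) := ⟨⟨0, hn⟩⟩
    exact hτ.nondegenerate det_zero
  choose ψ hψ using hτ.similitude
  obtain ⟨X, c, hX, hc, hno⟩ : ∃ (X : Matrix (Fin n) (Fin n) ℚ_[p]) (c : ℚ_[p]),
      InLieAlgebraOfImage p τ X ∧ Xᵀ * B + B * X = c • B ∧ HasNoIsotropicRelation X c := by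
    rcases hτ.big with h | h
    · obtain ⟨T, hT, hno⟩ := Pool.Agent.R932.SQ.exists_noRel hτ.symm_or_alt hτ.nondegenerate
      exact ⟨T, 0, h T hT, by rw [zero_smul]; exact hT, hno⟩
    · exact h
  obtain ⟨δ, k₀, hδ, hkey⟩ := Pool.Agent.L5helper71.Ss.exists_close (ℓ := p) hn (X := X) (c := c) hno
  obtain ⟨k, hk, γ, hγ⟩ := Pool.Agent.L5helper71.Ss.exists_of_tangent (ρ := τ) hB0 hψ hX hc hδ k₀
  have hO := Pool.Agent.L5helper71.Ss.isOpen_close (ℓ := p) hτ.continuous
    (Pool.Agent.L5helper71.Ss.cont_mult hτ.continuous hB0 hψ) X c δ k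
  have hO1 : IsOpen ((fun g => γ * g) ⁻¹' {g | Pool.Agent.L5helper71.Ss.Close p X c δ k (τ g) (ψ g)}) :=
    hO.preimage (continuous_const_mul γ)
  obtain ⟨Φ, hΦ⟩ := ProfiniteGrp.exist_openNormalSubgroup_sub_open_nhds_of_one hO1
    (show γ * 1 ∈ {g | Pool.Agent.L5helper71.Ss.Close p X c δ k (τ g) (ψ g)} by rw [mul_one]; exact hγ)
  refine ⟨Φ.toSubgroup, γ, Φ.isNormal', Φ.isOpen', ?_⟩
  rintro s ⟨σ, hσ⟩ Δ _ θ w hw S P ρ J χ h hρτ hJB ℓ _ U hU V hV W hWV hW
  have hcl : ∃ σ, Pool.Agent.L5helper71.Ss.Close p X c δ k (ρ p (θ σ)) (χ p (θ σ)) := by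
    have h1 := hΦ hσ
    refine ⟨σ, ?_⟩
    have h2 : Pool.Agent.L5helper71.Ss.Close p X c δ k (τ (γ * (γ⁻¹ * s σ)))
      (ψ (γ * (γ⁻¹ * s σ))) := h1
    rw [mul_inv_cancel_left] at h2
    have h3 : χ p (θ σ) = ψ (s σ) := by
      have h4 := h.similitude p (θ σ)
      rw [hρτ, hJB, hψ] at h4
      have h5 : (ψ (s σ) - χ p (θ σ)) • B = 0 := by rw [sub_smul, h4, sub_self]
      exact (sub_eq_zero.1 ((smul_eq_zero.1 h5).resolve_right hB0)).symm
    rw [hρτ, h3]
    exact h2
  refine (Pool.Agent.N171.TG.SSu.finite_index (ρ := Pool.Agent.N171.TG.endRep (ρ ℓ))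
    (fun M hM => ?_) U hU).sub hV hW hWV
  obtain ⟨h1, h2⟩ := Pool.Agent.L5helper71.Ss.semisimple_near (Module.finrank_self ℚ) θ hw h.finite P
    (fun v hv => ⟨h.monic v hv, h.weight v hv⟩) ρ (fun ℓ _ => h.continuous ℓ) J
    (fun ℓ _ => h.symm_or_alt ℓ) (fun ℓ _ => h.nondegenerate ℓ) χ (fun ℓ _ => h.similitude ℓ)
    (fun ℓ _ v hv hvℓ σ hσ => ⟨h.charpoly ℓ v hv hvℓ σ hσ, h.factor ℓ v hv hvℓ σ hσ⟩) p
    (fun g s hg => hkey k g s hk hg) hcl ℓ M (fun g x hx => hM g (Subgroup.mem_top g) x hx)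
  exact ⟨_, fun g _ x hx => h2 g x hx, h1⟩

end Pool.Agent.Results.MP_b4801b_ag.OneFiniteQuotient
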