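import Pool.Agent.L5helper68.SS.Main

/-!
# Semisimplicity and smooth affine cubic hypersurfaces (MP_b4801b_ag)

`C` is the category of the continuous finite-dimensional `ℚ_ℓ`-representations of the absolute Galois group
of `K`, `A⟦n⟧` is the Tate twist `A(n)`, `Hc X j` is the `ℓ`-adic cohomology with compact support of
`X ⊗ K̄` (the usual cohomology if `X` is projective), `Pure` means pure of some weight.
-/

set_option autoImplicit false

open CategoryTheory AlgebraicGeometry Pool.Agent.Y116.UV Pool.Agent.L5helper68.GO
  Pool.Agent.L5helper68.AH Pool.Agent.L5helper68.SS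

namespace Pool.Agent.Results.MP_b4801b_ag.SmoothAffineCubics

universe v u

/-- **Semisimplicity and smooth affine cubic hypersurfaces.** Let `G` be a set which generates the field
`K` (`G = ∅` for `K = ℚ`).

(1) For every smooth projective `X` over `K` and every `j` there are polynomials `q_1, …, q_r` in
`x_1, …, x_n` of degree at most two, with coefficients in `{0, 1} ∪ G`, such that `H^j(X)` is isomorphic to
a Tate twist of a cohomology group with compact support of the hypersurface `∑ w_l q_l(x) = 1`.

(2) All `H^j(X)`, `X` smooth and projective over `K`, are semisimple if and only if all pure cohomology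
groups with compact support of the hypersurfaces `∑ w_l q_l(x) = 1`, for `q_l` as in (1), are semisimple.

(3) These hypersurfaces are smooth over `K`. -/
theorem result {K : Type} [Field K] {C : Type u} [Category.{v} C] [Abelian C] [HasShift C ℤ]
    [∀ n : ℤ, (shiftFunctor C n).Additive] (Hc : Sch K → ℕ → C) (Pure : C → Prop)
    (hH : IsPureCohomology Hc Pure) (G : Set K) (hG : Subfield.closure G = ⊤) :
    (∀ X : Sch K, SmoothProjective X → ∀ j : ℕ,
      ∃ (n r : ℕ) (q : Fin r → MvPolynomial (Fin n) K), (∀ l, IsQuadric G (q l)) ∧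
        ∃ (i : ℕ) (m : ℤ), Nonempty (Hc X j ≅ (Hc (cubic q) i)⟦m⟧)) ∧
    ((∀ X : Sch K, SmoothProjective X → ∀ j : ℕ, SumOfSimples (Hc X j)) ↔
      ∀ (n r : ℕ) (q : Fin r → MvPolynomial (Fin n) K), (∀ l, IsQuadric G (q l)) →
        ∀ i : ℕ, Pure (Hc (cubic q) i) → SumOfSimples (Hc (cubic q) i)) ∧
    ∀ (n r : ℕ) (q : Fin r → MvPolynomial (Fin n) K), Smooth (cubic q).hom :=
  ⟨fun _ hX j => proj_iso hH hG hX j, semisimple_iff hH hG, fun _ _ q => smooth_jou q⟩

end Pool.Agent.Results.MP_b4801b_ag.SmoothAffineCubics
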