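import Pool.Agent.L5helper71.SsT4
import Pool.Agent.L5helper71.SsDeg

/-!
# Semisimplicity at every prime number from the Tate classes of degree four at one prime number

Let `F` be a number field and `M` a pure motive over `F` of weight `w > 0` with a polarization, for
instance (a part of) the cohomology of a smooth projective variety. Let `R` be the restriction of
scalars of `M` to `ℚ`; over the Galois closure `F'` of `F` it is the orthogonal sum of the conjugates
of `M`. `R` is a pure system over `ℚ` (`IsPureSystem`; `Γ` is the Galois group of `ℚ` and `θ` is the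
identity, or `Γ` is the fundamental group of a variety with a rational point `θ`), and over the subgroup
`H`, the Galois group of `F'`, its realization at the prime number `p` has the blocks `r i` with the forms
`B i` (`IsOrthogonalSum`).

**Theorem.** Suppose that at ONE prime number `p`
* the representations `r i` of `H` on the conjugates `V i` are semisimple, and
* the Tate classes in `V i ⊗ V i ⊗ V j ⊗ V j` (for all `i`, `j`) are the expected ones: the quadrilinear
  forms on `V i × V i × V j × V j` which an open subgroup of `H` multiplies by the square of the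
  similitude factor are invariant under the Lie algebra of the isometries of the forms `B i`
  (equivalently they are combinations of products of two values of the forms).

Then for EVERY prime number `ℓ` the realization `R_ℓ` is semisimple, for all subgroups of finite index,
and so are all subrepresentations, in particular `M_ℓ` as a representation of the Galois groups of
all finite extensions of `F`. (The forms are alternating of any rank, or symmetric of ranks at least five,
at most one of them odd.)

So the conjecture of Grothendieck and Serre follows for all prime numbers from the semisimplicity at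
one prime number together with the Tate conjecture for the fourth power of `M` at this same prime
number, if the Hodge structures of the conjugates of `M` are generic and independent. The Tate
conjecture at `p` was known to imply semisimplicity only at the prime number `p` itself.

Idea of the proof. Let `𝔤` be the Lie algebra of the image of `H` on `V i`. By the hypothesis for `i = j`
the representation `V i` is absolutely irreducible for all open subgroups. Hence the trace form is
nondegenerate on the isometries in `𝔤`, and the orthogonal projection onto them is an equivariant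
endomorphism of `End (V i)`, a Tate class of degree four. It is a scalar on the Lie algebra of all
isometries, so `𝔤` contains all isometries, or none; in the latter case an open subgroup would act by
scalars and all quadrilinear forms would be Tate classes. The hypothesis for `i ≠ j` and the theorem of
Goursat, Kolchin and Ribet show that the Lie algebra of the joint image contains the isometries of
all the forms. There is an element in it without relations of isotropic type between its
eigenvalues, and the theorem of the starting library `Pool.Agent.R932.SQ` (from one such element at one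
prime number to all prime numbers) can be applied to `R`; Clifford's theorem gives the subgroups of
finite index. Library theorems that are used and have not been handed in: the fourth power
alternative `Pool.Agent.R932.OP.AltB` (here without the hypothesis on scalars and for semisimple
`V i` only) and `Pool.Agent.R932.PO.joint_full`, `pair_of`.
-/

set_option autoImplicit false

namespace Pool.Agent.Results.MP_b4801b_ag.TateClassesDegreeFour

open Matrix Polynomial Filter Topology NumberField IsDedekindDomain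

/-- the absolute Galois group, with the profinite (Krull) topology -/
abbrev AbsoluteGaloisGroup (K : Type) [Field K] : Type := Gal(AlgebraicClosure K/K)

/-- `σ` is a Frobenius element at the prime `v` of `K`: there is a maximal ideal `Q` above `v` of the
ring of all algebraic integers with `σ x ≡ x ^ N(v)` modulo `Q` for all `x` -/
def IsFrobenius {K : Type} [Field K] [NumberField K] (v : HeightOneSpectrum (𝓞 K))
    (σ : AbsoluteGaloisGroup K) : Prop :=
  ∃ Q : Ideal (𝓞 (AlgebraicClosure K)), Q.IsMaximal ∧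
    Q.comap (algebraMap (𝓞 K) (𝓞 (AlgebraicClosure K))) = v.asIdeal ∧
    ∀ x : 𝓞 (AlgebraicClosure K), σ • x - x ^ Ideal.absNorm v.asIdeal ∈ Q

/-- Representations `ρ ℓ` of a group `Γ` on the `n`-dimensional spaces over the fields of `ℓ`-adic
numbers, for all prime numbers `ℓ`, and a homomorphism `θ` from the absolute Galois group of `ℚ` to
`Γ`, such that
* `ρ ℓ` is continuous on the Galois group of `ℚ`,
* `Γ` acts by similitudes, with factor `χ ℓ`, of the nondegenerate symmetric or alternating form with
  matrix `J ℓ`,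
* the representations are pure of weight `w` and form a compatible system: outside of the finite set
  `S` of places the inverse of a Frobenius element at `v` acts for all `ℓ` not divisible by `v` with the
  characteristic polynomial `P v`, which has integral coefficients and complex roots of absolute value
  `N(v) ^ (w / 2)`, and with similitude factor `N(v) ^ w`. -/
structure IsPureSystem {Γ : Type} [Group Γ] (θ : AbsoluteGaloisGroup ℚ →* Γ) (n w : ℕ)
    (S : Set (HeightOneSpectrum (𝓞 ℚ))) (P : HeightOneSpectrum (𝓞 ℚ) → ℤ[X])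
    (ρ : ∀ (ℓ : ℕ) [Fact ℓ.Prime], Γ →* Matrix (Fin n) (Fin n) ℚ_[ℓ])
    (J : ∀ (ℓ : ℕ) [Fact ℓ.Prime], Matrix (Fin n) (Fin n) ℚ_[ℓ])
    (χ : ∀ (ℓ : ℕ) [Fact ℓ.Prime], Γ → ℚ_[ℓ]) : Prop where
  finite : S.Finite
  monic : ∀ v ∉ S, (P v).Monic
  weight : ∀ v ∉ S, ∀ z : ℂ, aeval z (P v) = 0 → ‖z‖ ^ 2 = (Ideal.absNorm v.asIdeal : ℝ) ^ w
  continuous : ∀ (ℓ : ℕ) [Fact ℓ.Prime], Continuous fun g => ρ ℓ (θ g)
  symm_or_alt : ∀ (ℓ : ℕ) [Fact ℓ.Prime], (J ℓ)ᵀ = J ℓ ∨ (J ℓ)ᵀ = -J ℓ
  nondegenerate : ∀ (ℓ : ℕ) [Fact ℓ.Prime], (J ℓ).det ≠ 0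
  similitude : ∀ (ℓ : ℕ) [Fact ℓ.Prime] (g : Γ), (ρ ℓ g)ᵀ * J ℓ * ρ ℓ g = χ ℓ g • J ℓ
  charpoly : ∀ (ℓ : ℕ) [Fact ℓ.Prime], ∀ v ∉ S, (ℓ : 𝓞 ℚ) ∉ v.asIdeal →
    ∀ σ : AbsoluteGaloisGroup ℚ, IsFrobenius v σ →
      (ρ ℓ (θ σ⁻¹)).charpoly = (P v).map (algebraMap ℤ ℚ_[ℓ])
  factor : ∀ (ℓ : ℕ) [Fact ℓ.Prime], ∀ v ∉ S, (ℓ : 𝓞 ℚ) ∉ v.asIdeal →
    ∀ σ : AbsoluteGaloisGroup ℚ, IsFrobenius v σ →
      χ ℓ (θ σ⁻¹) = (Ideal.absNorm v.asIdeal : ℚ_[ℓ]) ^ w

/-- On the closed subgroup `H` the `p`-adic representation is block diagonal, with the representations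
`r i` of positive rank `N i` as blocks, and the form is block diagonal, with the blocks `B i`; if the
form is symmetric then the ranks `N i` are at least five and at most one of them is odd. -/
structure IsOrthogonalSum {Γ : Type} [Group Γ] (θ : AbsoluteGaloisGroup ℚ →* Γ) {p : ℕ}
    [Fact p.Prime] {n d : ℕ} {N : Fin d → ℕ} (E : (Σ i, Fin (N i)) ≃ Fin n)
    (ρ : Γ →* Matrix (Fin n) (Fin n) ℚ_[p]) (J : Matrix (Fin n) (Fin n) ℚ_[p])
    (H : Subgroup (AbsoluteGaloisGroup ℚ)) (r : ∀ i, H →* Matrix (Fin (N i)) (Fin (N i)) ℚ_[p])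
    (B : ∀ i, Matrix (Fin (N i)) (Fin (N i)) ℚ_[p]) : Prop where
  closed : IsClosed (H : Set (AbsoluteGaloisGroup ℚ))
  blocks : ∀ h : H, ρ (θ h) = (blockDiagonal' fun i => r i h).submatrix E.symm E.symm
  form : J = (blockDiagonal' B).submatrix E.symm E.symm
  rank_pos : ∀ i, 0 < N i
  rank_symm : Jᵀ = J → ∀ i, 5 ≤ N i
  rank_odd : ∀ i j, ¬ Even (N i) → ¬ Even (N j) → i = j

/-- the subspace `W` is stable under the subgroup `U` -/
def IsStable {F : Type} [Field F] {n : ℕ} {Γ : Type} [Group Γ] (ρ : Γ →* Matrix (Fin n) (Fin n) F)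
    (U : Subgroup Γ) (W : Submodule F (Fin n → F)) : Prop :=
  ∀ g ∈ U, ∀ x ∈ W, ρ g *ᵥ x ∈ W

/-- the representation is semisimple: every stable subspace has a stable complement -/
def IsSemisimple {F : Type} [Field F] {n : ℕ} {Γ : Type} [Group Γ]
    (ρ : Γ →* Matrix (Fin n) (Fin n) F) : Prop :=
  ∀ W, IsStable ρ ⊤ W → ∃ W', IsStable ρ ⊤ W' ∧ IsCompl W W'

/-- the subrepresentation `V` of the restriction to `U` is semisimple: every stable subspace of `V`
has a stable complement in `V` -/
def IsSemisimpleOn {F : Type} [Field F] {n : ℕ} {Γ : Type} [Group Γ]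
    (ρ : Γ →* Matrix (Fin n) (Fin n) F) (U : Subgroup Γ) (V : Submodule F (Fin n → F)) : Prop :=
  ∀ W ≤ V, IsStable ρ U W → ∃ W' ≤ V, IsStable ρ U W' ∧ W ⊓ W' = ⊥ ∧ W ⊔ W' = V

section
variable {p : ℕ} [Fact p.Prime] {d : ℕ} {N : Fin d → ℕ}

/-- the quadrilinear form `φ` on `V (a 0) × V (a 1) × V (a 2) × V (a 3)` is a Tate class: an open
subgroup multiplies it by the square of the similitude factor `χ` -/
def IsTateClass {H : Type} [Group H] [TopologicalSpace H]
    (r : ∀ i, H →* Matrix (Fin (N i)) (Fin (N i)) ℚ_[p]) (χ : H → ℚ_[p]) (a : Fin 4 → Fin d)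
    (φ : MultilinearMap ℚ_[p] (fun t => Fin (N (a t)) → ℚ_[p]) ℚ_[p]) : Prop :=
  ∃ U : Subgroup H, IsOpen (U : Set H) ∧ ∀ σ ∈ U, ∀ v,
    φ (fun t => r (a t) σ *ᵥ v t) = χ σ ^ 2 * φ v

/-- the quadrilinear form `φ` is invariant under the Lie algebra of the isometries of the forms `B i` -/
def IsExpected (B : ∀ i, Matrix (Fin (N i)) (Fin (N i)) ℚ_[p]) (a : Fin 4 → Fin d)
    (φ : MultilinearMap ℚ_[p] (fun t => Fin (N (a t)) → ℚ_[p]) ℚ_[p]) : Prop :=
  ∀ X : ∀ i, Matrix (Fin (N i)) (Fin (N i)) ℚ_[p], (∀ i, (X i)ᵀ * B i + B i * X i = 0) →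
    ∀ v, ∑ t, φ (Function.update v t (X (a t) *ᵥ v t)) = 0

end

theorem result {Γ : Type} [Group Γ] (θ : AbsoluteGaloisGroup ℚ →* Γ) {n w : ℕ} (hw : 0 < w)
    (S : Set (HeightOneSpectrum (𝓞 ℚ))) (P : HeightOneSpectrum (𝓞 ℚ) → ℤ[X])
    (ρ : ∀ (ℓ : ℕ) [Fact ℓ.Prime], Γ →* Matrix (Fin n) (Fin n) ℚ_[ℓ])
    (J : ∀ (ℓ : ℕ) [Fact ℓ.Prime], Matrix (Fin n) (Fin n) ℚ_[ℓ])
    (χ : ∀ (ℓ : ℕ) [Fact ℓ.Prime], Γ → ℚ_[ℓ]) (h : IsPureSystem θ n w S P ρ J χ)
    -- the decomposition over a subgroup at one prime number
    (p : ℕ) [Fact p.Prime] {d : ℕ} {N : Fin d → ℕ} (E : (Σ i, Fin (N i)) ≃ Fin n)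
    (H : Subgroup (AbsoluteGaloisGroup ℚ)) (r : ∀ i, H →* Matrix (Fin (N i)) (Fin (N i)) ℚ_[p])
    (B : ∀ i, Matrix (Fin (N i)) (Fin (N i)) ℚ_[p])
    (hs : IsOrthogonalSum θ E (ρ p) (J p) H r B)
    -- semisimplicity and the Tate classes of degree four at this prime number
    (hss : ∀ i, IsSemisimple (r i))
    (hT : ∀ a : Fin 4 → Fin d, a 0 = a 1 → a 2 = a 3 → ∀ φ,
      IsTateClass r (fun g => χ p (θ g)) a φ → IsExpected B a φ) :
    -- semisimplicity at every prime number
    ∀ (ℓ : ℕ) [Fact ℓ.Prime] (U : Subgroup Γ), U.FiniteIndex →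
      ∀ V : Submodule ℚ_[ℓ] (Fin n → ℚ_[ℓ]), IsStable (ρ ℓ) U V → IsSemisimpleOn (ρ ℓ) U V := by
  intro ℓ hℓ U hU V hV W hWV hW
  have hcomp : CompactSpace H := isCompact_iff_compactSpace.1 hs.closed.isCompact
  have hdet := fun i => Pool.Agent.L5helper71.Ss.det_of_block E hs.form (h.nondegenerate p) i
  have hsim : ∀ i (g : H), (r i g)ᵀ * B i * r i g = χ p (θ g) • B i := fun i g =>
    Pool.Agent.L5helper71.Ss.sim_block E (hs.blocks g) hs.form (h.similitude p (θ g)) i
  have hcont : ∀ i, Continuous (r i) := by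
    intro i
    refine continuous_pi fun x => continuous_pi fun y => ?_
    have h1 : (fun g : H => r i g x y) = fun g : H => ρ p (θ g) (E ⟨i, x⟩) (E ⟨i, y⟩) := by
      funext g
      rw [hs.blocks g, submatrix_apply, Equiv.symm_apply_apply, Equiv.symm_apply_apply,
        blockDiagonal'_apply_eq]
    rw [h1]
    exact (continuous_apply_apply _ _).comp ((h.continuous p).comp continuous_subtype_val)
  have hform : ∀ i, ((B i)ᵀ = B i ∧ 5 ≤ N i) ∨ (B i)ᵀ = -B i := by
    intro i
    rcases h.symm_or_alt p with h1 | h1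
    · left
      refine ⟨?_, hs.rank_symm h1 i⟩
      rw [hs.form, transpose_submatrix, blockDiagonal'_transpose] at h1
      have h2 : blockDiagonal' (fun i => (B i)ᵀ) = blockDiagonal' B := by
        ext x y
        have h3 := congrFun (congrFun h1 (E x)) (E y)
        simpa only [submatrix_apply, Equiv.symm_apply_apply] using h3
      exact congrFun (blockDiagonal'_injective h2) i
    · right
      rw [hs.form, transpose_submatrix, blockDiagonal'_transpose] at h1
      have h2 : blockDiagonal' (fun i => (B i)ᵀ) = blockDiagonal' (-B) := by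
        rw [blockDiagonal'_neg]
        ext x y
        have h3 := congrFun (congrFun h1 (E x)) (E y)
        simpa only [submatrix_apply, Matrix.neg_apply, Equiv.symm_apply_apply] using h3
      exact congrFun (blockDiagonal'_injective h2) i
  have hbig : ∀ X, (∀ i, (X i)ᵀ * B i + B i * X i = 0) → Pool.Agent.R932.PO.JTan p r X := by
    rcases Nat.eq_zero_or_pos d with hd | hd
    · subst hd
      intro X _
      exact ⟨fun _ => 1, fun i => i.elim0⟩
    let i₀ : Fin d := ⟨0, hd⟩
    obtain ⟨κ, hκ⟩ := Pool.Agent.L5helper71.Ss.exists_kappa (r i₀)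
      (Pool.Agent.L5helper71.Ss.ne_zero_of_det (hs.rank_pos i₀) (hdet i₀)) (fun g => χ p (θ g))
      (hsim i₀)
    refine Pool.Agent.L5helper71.Ss.jtan_of_t4 r hcont B (fun i => ⟨hform i, hdet i⟩) hs.rank_pos κ
      (fun i g => by rw [hκ]; exact hsim i g) (fun a h1 h2 T hT' => ?_) fun i => hss i
    obtain ⟨U', hU', hT'⟩ := hT'
    have h3 := hT a h1 h2 (Pool.Agent.R932.PO.mlin T) ⟨U', hU', fun σ hσ v => by
      have e : κ σ = χ p (θ σ) := hκ σ
      rw [Pool.Agent.R932.PO.mlin_apply, Pool.Agent.R932.PO.mlin_apply]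
      exact (hT' σ hσ v).trans (by rw [e])⟩
    intro X hX v
    have h4 := h3 X hX v
    rw [← h4]
    exact Finset.sum_congr rfl fun t _ => (Pool.Agent.R932.PO.mlin_apply _ _).symm
  exact (Pool.Agent.L5helper71.Ss.ss_full (Module.finrank_self ℚ) θ hw h.finite P
    (fun v hv => ⟨h.monic v hv, h.weight v hv⟩) ρ (fun ℓ _ => h.continuous ℓ) J
    (fun ℓ _ => h.symm_or_alt ℓ) (fun ℓ _ => h.nondegenerate ℓ) χ (fun ℓ _ => h.similitude ℓ)
    (fun ℓ _ v hv hvℓ σ hσ => ⟨h.charpoly ℓ v hv hvℓ σ hσ, h.factor ℓ v hv hvℓ σ hσ⟩)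
    p E H r B hs.blocks hs.form hs.rank_odd hbig ℓ U hU).sub hV hW hWV

end Pool.Agent.Results.MP_b4801b_ag.TateClassesDegreeFour
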